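import Pool.Agent.NH4.QL.Stm
import Pool.Agent.TH665.GP.F2

/-!
# Many sums of a small `a`-prime and a prime in every short interval
-/

set_option autoImplicit false

open Finset Filter

namespace Pool.Agent.NH4.QL

open Pool.Agent.H197R2.PG (gg PI one_le_gg pair_sieve_sharp gg_two_mul_le)

namespace Core

/-- the algebraic end -/
lemma alg {u s E η Y Y' L B : ℝ} (hη : 0 < η) (hY' : 0 < Y') (hL : 1 ≤ L) (hB : 0 < B)
    (hs : 0 ≤ s) (hYY : Y / 2 ≤ Y') (hu : η * Y' ≤ u) (hE : E ≤ B * Y' * L)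
    (h : u ^ 2 ≤ s * (u + E)) : min (η / 4) (η ^ 2 / (4 * B)) * Y / L ≤ s := by
  have hu0 : 0 < u := lt_of_lt_of_le (by positivity) hu
  have hL0 : 0 < L := by linarith
  rcases le_total E u with hc | hc
  · have h1 : u * u ≤ (2 * s) * u := by nlinarith
    have h2 : u ≤ 2 * s := le_of_mul_le_mul_right h1 hu0
    rcases le_total 0 Y with hY | hY
    · calc min (η / 4) (η ^ 2 / (4 * B)) * Y / L ≤ η / 4 * Y / L := by
            gcongr
            exact min_le_left _ _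
        _ ≤ η / 4 * Y := div_le_self (by positivity) hL
        _ ≤ s := by nlinarith
    · refine le_trans ?_ hs
      apply div_nonpos_of_nonpos_of_nonneg _ hL0.le
      exact mul_nonpos_of_nonneg_of_nonpos (le_min (by positivity) (by positivity)) hY
  · have h1 : u ^ 2 ≤ 2 * s * (B * Y' * L) := by
      calc u ^ 2 ≤ s * (u + E) := h
        _ ≤ s * (B * Y' * L + B * Y' * L) := by
            apply mul_le_mul_of_nonneg_left _ hs
            linarith
        _ = _ := by ring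
    have h2 : (η * Y') ^ 2 ≤ u ^ 2 := by gcongr
    have h3 : Y' * (η ^ 2 * Y') ≤ Y' * (2 * s * B * L) := by nlinarith
    have h4 : η ^ 2 * Y' ≤ 2 * s * B * L := le_of_mul_le_mul_left h3 hY'
    rcases le_total 0 Y with hY | hY
    · rw [div_le_iff₀ hL0]
      calc min (η / 4) (η ^ 2 / (4 * B)) * Y ≤ η ^ 2 / (4 * B) * Y := by
            gcongr
            exact min_le_right _ _
        _ = (η ^ 2 * (Y / 2)) / (2 * B) := by field_simp; ring
        _ ≤ (η ^ 2 * Y') / (2 * B) := by gcongr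
        _ ≤ (2 * s * B * L) / (2 * B) := by gcongr
        _ = s * L := by field_simp
    · refine le_trans ?_ hs
      apply div_nonpos_of_nonpos_of_nonneg _ hL0.le
      exact mul_nonpos_of_nonneg_of_nonpos (le_min (by positivity) (by positivity)) hY

/-- the facts needed about a large `X` -/
lemma evt (δ l0 : ℝ) (hδ : 0 < δ) (hδ1 : δ < 1) (XH u0 J0 : ℕ) : ∀ᶠ X : ℕ in atTop,
    XH ≤ X ∧ 3 ≤ X ∧ l0 ≤ Real.log X ∧ (J0 : ℝ) ≤ Real.log X ∧
    Real.log X ^ 2 ≤ (X : ℝ) ^ (1 - δ / 2) / 2 ∧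
    (X : ℝ) ^ (1 - δ) ≤ (X : ℝ) ^ (1 - δ / 2) / 2 ∧
    2 * Real.log X ^ 2 ≤ ((X : ℝ) ^ (1 - δ)) ^ (1 / 16 : ℝ) ∧ (u0 : ℝ) ≤ (X : ℝ) ^ (1 - δ) ∧
    3 ≤ Real.log (Real.log X) ∧ 3 ≤ Real.log (Real.log (Real.log X)) ∧
    1 ≤ Real.log (Real.log (Real.log (Real.log X))) := by
  have hX : Tendsto (fun X : ℕ => (X : ℝ)) atTop atTop := tendsto_natCast_atTop_atTop
  have hl : Tendsto (fun X : ℕ => Real.log (X : ℝ)) atTop atTop := Real.tendsto_log_atTop.comp hX
  have hll := Real.tendsto_log_atTop.comp hl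
  have hlll := Real.tendsto_log_atTop.comp hll
  have hllll := Real.tendsto_log_atTop.comp hlll
  have e1 : ∀ᶠ x : ℝ in atTop, Real.log x ^ 2 ≤ x ^ (1 - δ / 2) / 2 := by
    have h1 := (isLittleO_log_rpow_rpow_atTop (2 : ℝ) (by linarith : 0 < 1 - δ / 2)).bound
      (by norm_num : (0 : ℝ) < 1 / 2)
    filter_upwards [h1, eventually_ge_atTop 1] with x h1 h2
    have h3 : 0 ≤ Real.log x := Real.log_nonneg h2
    have h4 : (0 : ℝ) < x := by linarith
    rw [show ((2 : ℝ)) = ((2 : ℕ) : ℝ) by norm_num, Real.rpow_natCast,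
      Real.norm_of_nonneg (by positivity), Real.norm_of_nonneg (by positivity)] at h1
    push_cast at h1
    linarith
  have e2 : ∀ᶠ x : ℝ in atTop, x ^ (1 - δ) ≤ x ^ (1 - δ / 2) / 2 := by
    have h1 := (tendsto_rpow_atTop (by linarith : 0 < δ / 2)).eventually_ge_atTop 2
    filter_upwards [h1, eventually_ge_atTop 1] with x h1 h2
    have h4 : (0 : ℝ) < x := by linarith
    have h5 : x ^ (1 - δ / 2) = x ^ (1 - δ) * x ^ (δ / 2) := by
      rw [← Real.rpow_add h4]; congr 1; ring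
    have h6 : 0 < x ^ (1 - δ) := by positivity
    rw [h5]
    nlinarith
  have e3 : ∀ᶠ x : ℝ in atTop, 2 * Real.log x ^ 2 ≤ (x ^ (1 - δ)) ^ (1 / 16 : ℝ) := by
    have h1 := (isLittleO_log_rpow_rpow_atTop (2 : ℝ)
      (by apply mul_pos <;> linarith : 0 < (1 - δ) * (1 / 16 : ℝ))).bound
      (by norm_num : (0 : ℝ) < 1 / 2)
    filter_upwards [h1, eventually_ge_atTop 1] with x h1 h2
    have h3 : 0 ≤ Real.log x := Real.log_nonneg h2
    have h4 : (0 : ℝ) < x := by linarith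
    rw [← Real.rpow_mul h4.le]
    rw [show ((2 : ℝ)) = ((2 : ℕ) : ℝ) by norm_num, Real.rpow_natCast,
      Real.norm_of_nonneg (by positivity), Real.norm_of_nonneg (by positivity)] at h1
    push_cast at h1
    linarith
  have e4 : ∀ᶠ x : ℝ in atTop, (u0 : ℝ) ≤ x ^ (1 - δ) :=
    (tendsto_rpow_atTop (by linarith : 0 < 1 - δ)).eventually_ge_atTop _
  filter_upwards [eventually_ge_atTop XH, eventually_ge_atTop 3, hl.eventually_ge_atTop l0,
    hl.eventually_ge_atTop (J0 : ℝ), hX.eventually e1, hX.eventually e2, hX.eventually e3,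
    hX.eventually e4, hll.eventually_ge_atTop 3, hlll.eventually_ge_atTop 3,
    hllll.eventually_ge_atTop 1] with X g1 g2 g3 g4 g5 g6 g7 g8 g9 g10 g11
  exact ⟨g1, g2, g3, g4, g5, g6, g7, g8, g9, g10, g11⟩

/-- comparison of iterated logarithms -/
lemma logs {l J : ℝ} (h1 : l ≤ J) (h2 : J ≤ l ^ 2) (h3 : 3 ≤ Real.log l)
    (h4 : 3 ≤ Real.log (Real.log l)) (hl : 0 < l) :
    Real.log (Real.log (Real.log J)) ≤ 2 * Real.log (Real.log (Real.log l)) := by
  have hJ : 0 < J := by linarith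
  have k1 : Real.log l ≤ Real.log J := Real.log_le_log hl h1
  have k2 : Real.log J ≤ 2 * Real.log l := by
    have := Real.log_le_log hJ h2
    rw [Real.log_pow] at this
    push_cast at this
    exact this
  have k3 : Real.log J ≤ Real.log l ^ 2 := by nlinarith
  have k4 : Real.log (Real.log l) ≤ Real.log (Real.log J) :=
    Real.log_le_log (by linarith) k1
  have k5 : Real.log (Real.log J) ≤ 2 * Real.log (Real.log l) := by
    have := Real.log_le_log (by linarith : 0 < Real.log J) k3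
    rw [Real.log_pow] at this
    push_cast at this
    exact this
  have k6 : Real.log (Real.log J) ≤ Real.log (Real.log l) ^ 2 := by nlinarith
  have := Real.log_le_log (by linarith : 0 < Real.log (Real.log J)) k6
  rw [Real.log_pow] at this
  push_cast at this
  exact this

end Core

/-- `S_CORE` with a bound for the `a`-prime -/
def S_CORE2 : Prop := ∃ δ : ℝ, 0 < δ ∧ δ < 1 ∧ ∀ a : ℕ, ∃ c : ℝ, 0 < c ∧ ∃ X₀ : ℕ,
  ∀ X Y : ℕ, X₀ ≤ X → (X : ℝ) ^ (1 - δ) ≤ Y → Y ≤ X → ∃ S : Finset ℕ,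
    (∀ N ∈ S, X < N ∧ N ≤ X + Y ∧
      ∃ p q : ℕ, p < q ∧ p % 2 = 1 ∧ q % 2 = 1 ∧ PI a p ∧ q.Prime ∧ q + p = N ∧
        (p : ℝ) ≤ Real.log X ^ 2) ∧
    c * Y / Real.log (Real.log (Real.log (Real.log X))) ≤ S.card

open Pool.Agent.NH4.QL.Core in
theorem t_CORE2 (hA : S_AVG) (hE : S_ENE) (hS : S_SET) (hH : S_HOH) : S_CORE2 := by
  classical
  obtain ⟨δ, η, hδ0, hδ1, hη, XH, hXH2, hHo⟩ := hH
  obtain ⟨C4, hC4, u0, hps⟩ := pair_sieve_sharp
  refine ⟨δ / 2, by positivity, by linarith, fun a => ?_⟩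
  obtain ⟨C5, hC5, J0, hAv⟩ := hA (a + 3)
  obtain ⟨l0, hSe⟩ := hS a
  have hδ' : 0 < 1 - δ := by linarith
  set B : ℝ := 24 * C4 * C5 / (1 - δ) ^ 2 with hB
  have hB0 : 0 < B := by positivity
  obtain ⟨X₀, hX₀⟩ := eventually_atTop.mp (evt δ l0 hδ0 hδ1 XH u0 J0)
  refine ⟨min (η / 4) (η ^ 2 / (4 * B)), lt_min (by positivity) (by positivity), X₀, ?_⟩
  intro X Y hX hXY hYX
  obtain ⟨g1, g2, g3, g4, g5, g6, g7, g8, g9, g10, g11⟩ := hX₀ X hX
  set l : ℝ := Real.log X with hl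
  have hX3 : (3 : ℝ) ≤ X := by exact_mod_cast g2
  have hX0 : (0 : ℝ) < X := by linarith
  have hl0 : 0 < l := Real.log_pos (by linarith)
  obtain ⟨J, U, hU1, hU2, hU3, hU4, hJ1, hJ2, hJ3⟩ := hSe l g3
  have hJY : 2 * (J : ℝ) ≤ Y := by linarith
  have hJYn : 2 * J ≤ Y := by exact_mod_cast hJY
  have hcast : ((Y - J : ℕ) : ℝ) = Y - J := by rw [Nat.cast_sub (by omega)]
  set Y' : ℕ := Y - J with hY'
  have hY'2 : (Y : ℝ) / 2 ≤ Y' := by rw [hcast]; linarith
  have hY'X : (X : ℝ) ^ (1 - δ) ≤ Y' := by linarith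
  have hXp : 0 < (X : ℝ) ^ (1 - δ) := by positivity
  have hY'0 : (0 : ℝ) < Y' := by linarith
  have hY'le : Y' ≤ X := by omega
  have hlogY : (1 - δ) * l ≤ Real.log Y' := by
    have := Real.log_le_log hXp hY'X
    rwa [Real.log_rpow hX0] at this
  set Q := (Ioc X (X + Y')).filter Nat.Prime with hQ
  have hQc : η * Y' / l ≤ Q.card := hHo X Y' g1 hY'X hY'le
  have hUIcc : U ⊆ Icc 1 J := by
    intro p hp
    have := mem_Icc.mp (hU1 hp)
    rw [mem_Icc]
    omega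
  have hJ0J : J0 ≤ J := by
    have : (J0 : ℝ) ≤ J := by linarith
    exact_mod_cast this
  have hav := hAv J hJ0J U hUIcc hJ3
  have hlog3 : Real.log (Real.log (Real.log (J : ℝ))) ≤ 2 * Real.log (Real.log (Real.log l)) :=
    logs hJ1 hJ2 g9 g10 hl0
  set L4 : ℝ := Real.log (Real.log (Real.log l)) with hL4
  have hu0 : u0 ≤ Y' := by
    have : (u0 : ℝ) ≤ Y' := by linarith
    exact_mod_cast this
  -- the pairs
  have hpair : ∀ z ∈ (U ×ˢ U).filter (fun z => z.1 < z.2),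
      (((Ioc X (X + Y')).filter (fun n => n.Prime ∧ (n + (z.2 - z.1)).Prime)).card : ℝ) ≤
        (3 / 2 * C4 * Y' / ((1 - δ) ^ 2 * l ^ 2)) * gg (z.2 - z.1) := by
    intro z hz
    rw [mem_filter, mem_product] at hz
    have h1 := mem_Icc.mp (hU1 hz.1.1)
    have h2 := mem_Icc.mp (hU1 hz.1.2)
    have h3 : 0 < z.2 - z.1 := by omega
    have h4 : z.2 - z.1 ≤ J := by omega
    have h4' : ((z.2 - z.1 : ℕ) : ℝ) ≤ J := by exact_mod_cast h4
    have h5 := hps (z.2 - z.1) X Y' h3 hu0 (by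
      calc 2 * ((z.2 - z.1 : ℕ) : ℝ) ≤ 2 * l ^ 2 := by linarith
        _ ≤ ((X : ℝ) ^ (1 - δ)) ^ (1 / 16 : ℝ) := g7
        _ ≤ (Y' : ℝ) ^ (1 / 16 : ℝ) := by gcongr)
    refine h5.trans ?_
    have h6 := gg_two_mul_le (z.2 - z.1) h3
    have h7 := one_le_gg (z.2 - z.1)
    have h8 : ((1 - δ) * l) ^ 2 ≤ Real.log Y' ^ 2 := by
      have : 0 ≤ (1 - δ) * l := by positivity
      gcongr
    calc C4 * gg (2 * (z.2 - z.1)) * Y' / Real.log Y' ^ 2
        ≤ C4 * (3 / 2 * gg (z.2 - z.1)) * Y' / ((1 - δ) * l) ^ 2 := by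
          gcongr
      _ = _ := by rw [mul_pow]; ring
  have hE2 : 2 * ∑ z ∈ (U ×ˢ U).filter (fun z => z.1 < z.2),
      (((Ioc X (X + Y')).filter (fun n => n.Prime ∧ (n + (z.2 - z.1)).Prime)).card : ℝ) ≤
        B * Y' * L4 := by
    have h1 := Finset.sum_le_sum hpair
    rw [← Finset.mul_sum] at h1
    have h2 : C5 * (U.card : ℝ) ^ 2 * Real.log (Real.log (Real.log J)) ≤
        C5 * (2 * l) ^ 2 * (2 * L4) := by
      have hL40 : 0 ≤ 2 * L4 := by linarith
      calc C5 * (U.card : ℝ) ^ 2 * Real.log (Real.log (Real.log J))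
          ≤ C5 * (U.card : ℝ) ^ 2 * (2 * L4) := by
            apply mul_le_mul_of_nonneg_left hlog3 (by positivity)
        _ ≤ C5 * (2 * l) ^ 2 * (2 * L4) := by gcongr
    have h3 : 0 ≤ 3 / 2 * C4 * Y' / ((1 - δ) ^ 2 * l ^ 2) := by positivity
    calc 2 * ∑ z ∈ (U ×ˢ U).filter (fun z => z.1 < z.2),
          (((Ioc X (X + Y')).filter (fun n => n.Prime ∧ (n + (z.2 - z.1)).Prime)).card : ℝ)
        ≤ 2 * ((3 / 2 * C4 * Y' / ((1 - δ) ^ 2 * l ^ 2)) * (C5 * (2 * l) ^ 2 * (2 * L4))) := by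
          have := mul_le_mul_of_nonneg_left (hav.trans h2) h3
          linarith
      _ = B * Y' * L4 := by
          rw [hB]
          field_simp
          ring
  have hen := hE X Y' U Q (by rw [hQ])
  set Sums := (U ×ˢ Q).image (fun z => z.2 + z.1) with hSums
  have hu : η * Y' ≤ (U.card : ℝ) * Q.card := by
    calc η * Y' = l * (η * Y' / l) := by field_simp
      _ ≤ (U.card : ℝ) * Q.card := by
          apply mul_le_mul hU3 hQc (by positivity) (Nat.cast_nonneg _)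
  refine ⟨Sums, ?_, ?_⟩
  · intro N hN
    rw [hSums] at hN
    obtain ⟨z, hz, rfl⟩ := mem_image.mp hN
    rw [mem_product] at hz
    have h1 := mem_Icc.mp (hU1 hz.1)
    have h2 := mem_filter.mp hz.2
    have h3 := mem_Ioc.mp h2.1
    have hp : z.1.Prime := hU2 _ hz.1 0 (Nat.zero_le _)
    have hp2 := hp.eq_two_or_odd
    have hq2 := h2.2.eq_two_or_odd
    have h5 : (z.1 : ℝ) ≤ J := by exact_mod_cast h1.2
    exact ⟨by omega, by omega, z.1, z.2, by omega, by omega, by omega, hU2 _ hz.1, h2.2, rfl,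
      h5.trans hJ2⟩
  · exact alg hη hY'0 g11 hB0 (Nat.cast_nonneg _) hY'2 hu hE2 hen

end Pool.Agent.NH4.QL
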