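import Pool.Agent.NH4.QL.Stm
import Pool.Agent.TH665.GP.F1

set_option autoImplicit false

/-! # Cauchy-Schwarz for the sums of an element of a set and a prime -/

open Finset Filter

namespace Pool.Agent.NH4.QL

namespace EneAux

lemma energy_le (X Y : ℕ) (U Q : Finset ℕ) (hQ : Q ⊆ (Ioc X (X + Y)).filter Nat.Prime) :
    ((((U ×ˢ Q) ×ˢ (U ×ˢ Q)).filter (fun z : (ℕ × ℕ) × (ℕ × ℕ) =>
      z.1.2 + z.1.1 = z.2.2 + z.2.1)).card : ℝ) ≤
      U.card * Q.card + 2 * ∑ z ∈ (U ×ˢ U).filter (fun z => z.1 < z.2),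
        (((Ioc X (X + Y)).filter (fun n => n.Prime ∧ (n + (z.2 - z.1)).Prime)).card : ℝ) := by
  classical
  set W := ((U ×ˢ Q) ×ˢ (U ×ˢ Q)).filter (fun z : (ℕ × ℕ) × (ℕ × ℕ) =>
      z.1.2 + z.1.1 = z.2.2 + z.2.1) with hW
  have hmem : ∀ z, z ∈ W ↔ (((z.1.1 ∈ U ∧ z.1.2 ∈ Q) ∧ (z.2.1 ∈ U ∧ z.2.2 ∈ Q)) ∧
      z.1.2 + z.1.1 = z.2.2 + z.2.1) := by
    intro z
    rw [hW, mem_filter, mem_product, mem_product, mem_product]
  have hcov : W ⊆ W.filter (fun z => z.1.1 = z.2.1) ∪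
      (W.filter (fun z => z.1.1 < z.2.1) ∪ W.filter (fun z => z.2.1 < z.1.1)) := by
    intro z hz
    rcases lt_trichotomy z.1.1 z.2.1 with h | h | h
    · exact mem_union_right _ (mem_union_left _ (mem_filter.mpr ⟨hz, h⟩))
    · exact mem_union_left _ (mem_filter.mpr ⟨hz, h⟩)
    · exact mem_union_right _ (mem_union_right _ (mem_filter.mpr ⟨hz, h⟩))
  have h0 : (W.filter (fun z => z.1.1 = z.2.1)).card ≤ U.card * Q.card := by
    rw [← Finset.card_product]
    apply Finset.card_le_card_of_injOn (fun z => z.1)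
    · intro z hz
      rw [Finset.mem_coe, mem_filter, hmem] at hz
      rw [Finset.mem_coe, mem_product]
      exact hz.1.1.1
    · intro z hz w hw hzw
      rw [Finset.mem_coe, mem_filter, hmem] at hz hw
      simp only at hzw
      obtain ⟨⟨_, g1⟩, g2⟩ := hz
      obtain ⟨⟨_, g3⟩, g4⟩ := hw
      have e1 : z.1.1 = w.1.1 := by rw [hzw]
      have e2 : z.1.2 = w.1.2 := by rw [hzw]
      exact Prod.ext hzw (Prod.ext (by omega) (by omega))
  have h1 : ((W.filter (fun z => z.1.1 < z.2.1)).card : ℝ) ≤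
      ∑ z ∈ (U ×ˢ U).filter (fun z => z.1 < z.2),
        (((Ioc X (X + Y)).filter (fun n => n.Prime ∧ (n + (z.2 - z.1)).Prime)).card : ℝ) := by
    have k1 : (W.filter (fun z => z.1.1 < z.2.1)).card ≤
        ((((U ×ˢ U).filter (fun z : ℕ × ℕ => z.1 < z.2)) ×ˢ (Ioc X (X + Y))).filter
          (fun v : (ℕ × ℕ) × ℕ => v.2.Prime ∧ (v.2 + (v.1.2 - v.1.1)).Prime)).card := by
      apply Finset.card_le_card_of_injOn (fun z => ((z.1.1, z.2.1), z.2.2))
      · intro z hz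
        rw [Finset.mem_coe, mem_filter, hmem] at hz
        obtain ⟨⟨⟨⟨g1, g2⟩, g3, g4⟩, g6⟩, g7⟩ := hz
        have q1 := mem_filter.mp (hQ g2)
        have q2 := mem_filter.mp (hQ g4)
        rw [Finset.mem_coe, mem_filter, mem_product, mem_filter, mem_product]
        simp only
        refine ⟨⟨⟨⟨g1, g3⟩, g7⟩, q2.1⟩, q2.2, ?_⟩
        have : z.2.2 + (z.2.1 - z.1.1) = z.1.2 := by omega
        rw [this]
        exact q1.2
      · intro z hz w hw hzw
        rw [Finset.mem_coe, mem_filter, hmem] at hz hw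
        simp only [Prod.mk.injEq] at hzw
        obtain ⟨⟨_, g1⟩, g2⟩ := hz
        obtain ⟨⟨_, g3⟩, g4⟩ := hw
        obtain ⟨⟨e1, e2⟩, e3⟩ := hzw
        exact Prod.ext (Prod.ext e1 (by omega)) (Prod.ext e2 e3)
    have k2 : ((((U ×ˢ U).filter (fun z : ℕ × ℕ => z.1 < z.2)) ×ˢ (Ioc X (X + Y))).filter
          (fun v : (ℕ × ℕ) × ℕ => v.2.Prime ∧ (v.2 + (v.1.2 - v.1.1)).Prime)).card =
        ∑ w ∈ (U ×ˢ U).filter (fun z : ℕ × ℕ => z.1 < z.2),
          ((Ioc X (X + Y)).filter (fun n => n.Prime ∧ (n + (w.2 - w.1)).Prime)).card := by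
      rw [Finset.card_filter, Finset.sum_product]
      apply Finset.sum_congr rfl
      intro w _
      rw [Finset.card_filter]
    rw [k2] at k1
    exact_mod_cast k1
  have h2 : (W.filter (fun z => z.2.1 < z.1.1)).card ≤ (W.filter (fun z => z.1.1 < z.2.1)).card := by
    apply Finset.card_le_card_of_injOn (fun z => (z.2, z.1))
    · intro z hz
      rw [Finset.mem_coe, mem_filter, hmem] at hz
      rw [Finset.mem_coe, mem_filter, hmem]
      obtain ⟨⟨⟨g1, g2⟩, g6⟩, g7⟩ := hz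
      exact ⟨⟨⟨g2, g1⟩, g6.symm⟩, g7⟩
    · intro z _ w _ hzw
      simp only [Prod.mk.injEq] at hzw
      exact Prod.ext hzw.2 hzw.1
  have h3 := (Finset.card_le_card hcov).trans ((Finset.card_union_le _ _).trans
    (Nat.add_le_add_left (Finset.card_union_le _ _) _))
  have h3' : (W.card : ℝ) ≤ (W.filter (fun z => z.1.1 = z.2.1)).card +
      ((W.filter (fun z => z.1.1 < z.2.1)).card + (W.filter (fun z => z.2.1 < z.1.1)).card) := by
    exact_mod_cast h3
  have h0' : ((W.filter (fun z => z.1.1 = z.2.1)).card : ℝ) ≤ U.card * Q.card := by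
    exact_mod_cast h0
  have h2' : ((W.filter (fun z => z.2.1 < z.1.1)).card : ℝ) ≤
      (W.filter (fun z => z.1.1 < z.2.1)).card := by exact_mod_cast h2
  linarith

end EneAux

theorem t_ENE : S_ENE := by
  classical
  intro X Y U Q hQ
  have h := Pool.Agent.TH665.GP.energy (U ×ˢ Q) (fun z : ℕ × ℕ => z.2 + z.1)
  rw [Finset.card_product, Nat.cast_mul] at h
  refine h.trans (mul_le_mul_of_nonneg_left ?_ (Nat.cast_nonneg _))
  exact EneAux.energy_le X Y U Q hQ

end Pool.Agent.NH4.QL
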