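import Pool.Agent.NH4.QL.Stm
import Pool.Agent.TH665.GP.F3

/-!
Project QL, part FIN: indices and the factor two (helper54).
-/

set_option autoImplicit false

open Finset Filter Topology

namespace Pool.Agent.NH4.QL

open Pool.Agent.H197R2.PG (gg PI)

namespace FinP

theorem logs {x : ℝ} (hx : 1 ≤ x) (h1 : 2 ≤ Real.log x) (h2 : 2 ≤ Real.log (Real.log x))
    (h3 : 2 ≤ Real.log (Real.log (Real.log x))) :
    0 < Real.log (Real.log (Real.log (Real.log (2 * x)))) ∧
    Real.log (Real.log (Real.log (Real.log (2 * x)))) ≤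
      2 * Real.log (Real.log (Real.log (Real.log x))) := by
  have hx0 : (0 : ℝ) < x := by linarith
  have hl2 := Real.log_two_lt_d9
  have hlx : Real.log (2 * x) = Real.log 2 + Real.log x := Real.log_mul (by norm_num) hx0.ne'
  have hl20 : 0 < Real.log 2 := Real.log_pos (by norm_num)
  have k1 : Real.log (2 * x) ≤ Real.log x ^ 2 := by
    rw [hlx]; nlinarith
  have k1' : Real.log x ≤ Real.log (2 * x) := by rw [hlx]; linarith
  have k2 : Real.log (Real.log (2 * x)) ≤ 2 * Real.log (Real.log x) := by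
    have := Real.log_le_log (by linarith : 0 < Real.log (2 * x)) k1
    rw [Real.log_pow] at this
    push_cast at this
    exact this
  have k2' : Real.log (Real.log x) ≤ Real.log (Real.log (2 * x)) :=
    Real.log_le_log (by linarith) k1'
  have k3 : Real.log (Real.log (Real.log (2 * x))) ≤ 2 * Real.log (Real.log (Real.log x)) := by
    have h7 : 2 * Real.log (Real.log x) ≤ Real.log (Real.log x) ^ 2 := by nlinarith
    have := Real.log_le_log (by linarith : 0 < Real.log (Real.log (2 * x))) (k2.trans h7)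
    rw [Real.log_pow] at this
    push_cast at this
    exact this
  have k3' : Real.log (Real.log (Real.log x)) ≤ Real.log (Real.log (Real.log (2 * x))) :=
    Real.log_le_log (by linarith) k2'
  have k4 : Real.log (Real.log (Real.log (Real.log (2 * x)))) ≤
      2 * Real.log (Real.log (Real.log (Real.log x))) := by
    have h7 : 2 * Real.log (Real.log (Real.log x)) ≤ Real.log (Real.log (Real.log x)) ^ 2 := by
      nlinarith
    have := Real.log_le_log (by linarith : 0 < Real.log (Real.log (Real.log (2 * x))))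
      (k3.trans h7)
    rw [Real.log_pow] at this
    push_cast at this
    exact this
  exact ⟨Real.log_pos (by linarith), k4⟩

theorem rpow_two {δ x y : ℝ} (h0 : 0 < δ) (hx : 0 ≤ x) (h : x ^ (1 - δ) ≤ y) :
    (2 * x) ^ (1 - δ) ≤ 2 * y := by
  rw [Real.mul_rpow (by norm_num) hx]
  have h2 : (2 : ℝ) ^ (1 - δ) ≤ 2 := by
    calc (2 : ℝ) ^ (1 - δ) ≤ (2 : ℝ) ^ (1 : ℝ) :=
          Real.rpow_le_rpow_of_exponent_le (by norm_num) (by linarith)
      _ = 2 := Real.rpow_one 2
  have h3 : 0 ≤ x ^ (1 - δ) := Real.rpow_nonneg hx _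
  exact mul_le_mul h2 h h3 (by norm_num)

end FinP

open FinP in
theorem t_FIN (h : S_CORE) : S_FIN := by
  classical
  obtain ⟨δ, hδ0, hδ1, hcore⟩ := h
  refine ⟨δ, hδ0, hδ1, fun a => ?_⟩
  obtain ⟨c, hc, X0, hX0⟩ := hcore a
  refine ⟨c, hc, ?_⟩
  have hl1 : Tendsto (fun x : ℕ => Real.log (x : ℝ)) atTop atTop :=
    Real.tendsto_log_atTop.comp tendsto_natCast_atTop_atTop
  have hl2 : Tendsto (fun x : ℕ => Real.log (Real.log (x : ℝ))) atTop atTop :=
    Real.tendsto_log_atTop.comp hl1
  have hl3 : Tendsto (fun x : ℕ => Real.log (Real.log (Real.log (x : ℝ)))) atTop atTop :=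
    Real.tendsto_log_atTop.comp hl2
  obtain ⟨X1, hX1⟩ := eventually_atTop.mp ((hl1.eventually_ge_atTop 2).and
    ((hl2.eventually_ge_atTop 2).and (hl3.eventually_ge_atTop 2)))
  refine ⟨max (max X0 X1) 1, fun X Y hX hY hYX => ?_⟩
  have hXa : X0 ≤ X := le_trans (le_trans (le_max_left _ _) (le_max_left _ _)) hX
  have hXb : X1 ≤ X := le_trans (le_trans (le_max_right _ _) (le_max_left _ _)) hX
  have hXc : 1 ≤ X := le_trans (le_max_right _ _) hX
  obtain ⟨g1, g2, g3⟩ := hX1 X hXb
  obtain ⟨p1, p2⟩ := logs (x := (X : ℝ)) (by exact_mod_cast hXc) g1 g2 g3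
  obtain ⟨S, hS1, hS2⟩ := hX0 (2 * X) (2 * Y) (by omega)
    (by
      push_cast
      exact rpow_two hδ0 (Nat.cast_nonneg X) hY)
    (by omega)
  set T := S.image (fun N => N / 2) with hT
  have hinj : Set.InjOn (fun N => N / 2) (S : Set ℕ) := by
    intro N hN M hM hNM
    obtain ⟨_, _, p, q, _, e1, e2, _, _, e3⟩ := hS1 N hN
    obtain ⟨_, _, p', q', _, e1', e2', _, _, e3'⟩ := hS1 M hM
    simp only at hNM
    omega
  have hTcard : T.card = S.card := Finset.card_image_of_injOn hinj
  set R : Set ℕ := {n : ℕ | X < n ∧ n ≤ X + Y ∧ ∃ u v : ℕ, 0 < u ∧ 0 < v ∧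
        iter a u ≠ iter 0 v ∧ iter a u + iter 0 v = 2 * n} with hR
  have hfin : R.Finite := (Set.finite_Iic (X + Y)).subset (fun n hn => hn.2.1)
  have hsub : (T : Set ℕ) ⊆ R := by
    intro n hn
    rw [Finset.mem_coe, hT, mem_image] at hn
    obtain ⟨N, hN, rfl⟩ := hn
    obtain ⟨e0, e00, p, q, e, e1, e2, e4, e5, e3⟩ := hS1 N hN
    have e5' : PI 0 q := by
      intro j hj
      have : j = 0 := by omega
      subst this
      simpa using e5
    obtain ⟨u, hu, hu2⟩ := Pool.Agent.TH665.GP.exists_index e4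
    obtain ⟨v, hv, hv2⟩ := Pool.Agent.TH665.GP.exists_index e5'
    have hu3 : iter a u = p := hu2
    have hv3 : iter 0 v = q := hv2
    refine ⟨by omega, by omega, u, v, hu, hv, ?_, ?_⟩
    · rw [hu3, hv3]
      omega
    · rw [hu3, hv3]
      omega
  have h5 := Set.ncard_le_ncard hsub hfin
  rw [Set.ncard_coe_finset, hTcard] at h5
  have h6 : (S.card : ℝ) ≤ Set.ncard R := by exact_mod_cast h5
  refine le_trans ?_ h6
  refine le_trans ?_ hS2
  push_cast
  have hY0 : (0 : ℝ) ≤ Y := Nat.cast_nonneg Y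
  have p3 : 0 < Real.log (Real.log (Real.log (Real.log (X : ℝ)))) := by linarith
  calc c * Y / Real.log (Real.log (Real.log (Real.log (X : ℝ))))
      = c * (2 * Y) / (2 * Real.log (Real.log (Real.log (Real.log (X : ℝ))))) := by
        field_simp
    _ ≤ c * (2 * Y) / Real.log (Real.log (Real.log (Real.log (2 * (X : ℝ))))) := by
        exact div_le_div_of_nonneg_left (by positivity) p1 p2

end Pool.Agent.NH4.QL
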