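import Pool.Agent.NH4.QL.Core
import Pool.Agent.NH4.QL.Fin

/-!
The final form with a bound for the `a`-prime (after part FIN by helper54).
-/

set_option autoImplicit false

open Finset Filter Topology

namespace Pool.Agent.NH4.QL

open Pool.Agent.H197R2.PG (gg PI)

/-- The final form with the bound. -/
def S_FIN2 : Prop := ∃ δ : ℝ, 0 < δ ∧ δ < 1 ∧ ∀ a : ℕ, ∃ c : ℝ, 0 < c ∧ ∃ X₀ : ℕ,
  ∀ X Y : ℕ, X₀ ≤ X → (X : ℝ) ^ (1 - δ) ≤ Y → Y ≤ X →
    c * Y / Real.log (Real.log (Real.log (Real.log X))) ≤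
      Set.ncard {n : ℕ | X < n ∧ n ≤ X + Y ∧ ∃ u v : ℕ, 0 < u ∧ 0 < v ∧
        iter a u ≠ iter 0 v ∧ iter a u + iter 0 v = 2 * n ∧ (iter a u : ℝ) ≤ Real.log X ^ 3}

open Pool.Agent.NH4.QL.FinP in
theorem t_FIN2 (h : S_CORE2) : S_FIN2 := by
  classical
  obtain ⟨δ, hδ0, hδ1, hcore⟩ := h
  refine ⟨δ, hδ0, hδ1, fun a => ?_⟩
  obtain ⟨c, hc, X0, hX0⟩ := hcore a
  refine ⟨c, hc, ?_⟩
  have hl1 : Tendsto (fun x : ℕ => Real.log (x : ℝ)) atTop atTop :=
    Real.tendsto_log_atTop.comp tendsto_natCast_atTop_atTop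
  have hl2 : Tendsto (fun x : ℕ => Real.log (Real.log (x : ℝ))) atTop atTop :=
    Real.tendsto_log_atTop.comp hl1
  have hl3 : Tendsto (fun x : ℕ => Real.log (Real.log (Real.log (x : ℝ)))) atTop atTop :=
    Real.tendsto_log_atTop.comp hl2
  obtain ⟨X1, hX1⟩ := eventually_atTop.mp ((hl1.eventually_ge_atTop 4).and
    ((hl2.eventually_ge_atTop 2).and (hl3.eventually_ge_atTop 2)))
  refine ⟨max (max X0 X1) 1, fun X Y hX hY hYX => ?_⟩
  have hXa : X0 ≤ X := le_trans (le_trans (le_max_left _ _) (le_max_left _ _)) hX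
  have hXb : X1 ≤ X := le_trans (le_trans (le_max_right _ _) (le_max_left _ _)) hX
  have hXc : 1 ≤ X := le_trans (le_max_right _ _) hX
  obtain ⟨g1, g2, g3⟩ := hX1 X hXb
  obtain ⟨p1, p2⟩ := logs (x := (X : ℝ)) (by exact_mod_cast hXc) (by linarith) g2 g3
  have hXc' : (1 : ℝ) ≤ X := by exact_mod_cast hXc
  have hlog2X : Real.log (2 * (X : ℝ)) ^ 2 ≤ Real.log X ^ 3 := by
    have e1 : Real.log (2 * (X : ℝ)) = Real.log 2 + Real.log X :=
      Real.log_mul (by norm_num) (by linarith)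
    have e2 := Real.log_two_lt_d9
    have e3 : 0 < Real.log 2 := Real.log_pos (by norm_num)
    have e4 : Real.log (2 * (X : ℝ)) ≤ 2 * Real.log X := by rw [e1]; linarith
    have e5 : 0 ≤ Real.log (2 * (X : ℝ)) := by rw [e1]; linarith
    calc Real.log (2 * (X : ℝ)) ^ 2 ≤ (2 * Real.log X) ^ 2 := by gcongr
      _ = 4 * Real.log X ^ 2 := by ring
      _ ≤ Real.log X * Real.log X ^ 2 := by gcongr
      _ = Real.log X ^ 3 := by ring
  obtain ⟨S, hS1, hS2⟩ := hX0 (2 * X) (2 * Y) (by omega)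
    (by
      push_cast
      exact rpow_two hδ0 (Nat.cast_nonneg X) hY)
    (by omega)
  set T := S.image (fun N => N / 2) with hT
  have hinj : Set.InjOn (fun N => N / 2) (S : Set ℕ) := by
    intro N hN M hM hNM
    obtain ⟨_, _, p, q, _, e1, e2, _, _, e3, _⟩ := hS1 N hN
    obtain ⟨_, _, p', q', _, e1', e2', _, _, e3', _⟩ := hS1 M hM
    simp only at hNM
    omega
  have hTcard : T.card = S.card := Finset.card_image_of_injOn hinj
  set R : Set ℕ := {n : ℕ | X < n ∧ n ≤ X + Y ∧ ∃ u v : ℕ, 0 < u ∧ 0 < v ∧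
        iter a u ≠ iter 0 v ∧ iter a u + iter 0 v = 2 * n ∧ (iter a u : ℝ) ≤ Real.log X ^ 3} with hR
  have hfin : R.Finite := (Set.finite_Iic (X + Y)).subset (fun n hn => hn.2.1)
  have hsub : (T : Set ℕ) ⊆ R := by
    intro n hn
    rw [Finset.mem_coe, hT, mem_image] at hn
    obtain ⟨N, hN, rfl⟩ := hn
    obtain ⟨e0, e00, p, q, e, e1, e2, e4, e5, e3, e6⟩ := hS1 N hN
    have e5' : PI 0 q := by
      intro j hj
      have : j = 0 := by omega
      subst this
      simpa using e5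
    obtain ⟨u, hu, hu2⟩ := Pool.Agent.TH665.GP.exists_index e4
    obtain ⟨v, hv, hv2⟩ := Pool.Agent.TH665.GP.exists_index e5'
    have hu3 : iter a u = p := hu2
    have hv3 : iter 0 v = q := hv2
    refine ⟨by omega, by omega, u, v, hu, hv, ?_, ?_, ?_⟩
    · rw [hu3, hv3]
      omega
    · rw [hu3, hv3]
      omega
    · rw [hu3]
      push_cast at e6
      exact e6.trans hlog2X
  have h5 := Set.ncard_le_ncard hsub hfin
  rw [Set.ncard_coe_finset, hTcard] at h5
  have h6 : (S.card : ℝ) ≤ Set.ncard R := by exact_mod_cast h5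
  refine le_trans ?_ h6
  refine le_trans ?_ hS2
  push_cast
  have hY0 : (0 : ℝ) ≤ Y := Nat.cast_nonneg Y
  have p3 : 0 < Real.log (Real.log (Real.log (Real.log (X : ℝ)))) := by linarith
  calc c * Y / Real.log (Real.log (Real.log (Real.log (X : ℝ))))
      = c * (2 * Y) / (2 * Real.log (Real.log (Real.log (Real.log (X : ℝ))))) := by
        field_simp
    _ ≤ c * (2 * Y) / Real.log (Real.log (Real.log (Real.log (2 * (X : ℝ))))) := by
        exact div_le_div_of_nonneg_left (by positivity) p1 p2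

end Pool.Agent.NH4.QL
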