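import Pool.Agent.NH4.QL.Stm
import Pool.Agent.TH665.GP.F2

/-!
# A set of about `l` small `a`-primes
-/

set_option autoImplicit false

open Finset Filter

namespace Pool.Agent.NH4.QL.SetA

theorem set_aux (PI : ℕ → ℕ → Prop) (density3 : ∀ (k : ℕ), ∃ c : ℝ, 0 < c ∧ ∃ y0 : ℕ, ∀ y : ℕ, y0 ≤ y → ∃ S : Finset ℕ,
    S ⊆ Icc 3 y ∧ (∀ a ∈ S, PI k a) ∧ c * y ≤ S.card * Real.log y ^ (k + 1)) :
  ∀ a : ℕ, ∃ l0 : ℝ, ∀ l : ℝ, l0 ≤ l → ∃ (J : ℕ) (U : Finset ℕ),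
  U ⊆ Icc 3 J ∧ (∀ p ∈ U, PI a p) ∧ l ≤ U.card ∧ (U.card : ℝ) ≤ 2 * l ∧
    l ≤ J ∧ (J : ℝ) ≤ l ^ 2 ∧ (J : ℝ) ≤ U.card * Real.log J ^ (a + 3) := by
  intro a
  obtain ⟨c, hc, y0, h⟩ := density3 a
  have ev1 : ∀ᶠ l : ℝ in atTop, Real.log l ^ (a + 2) ≤ 1 / 2 * l := by
    have h1 := (Real.isLittleO_pow_log_id_atTop (n := a + 2)).def (c := 1 / 2) (by norm_num)
    filter_upwards [h1, eventually_ge_atTop 1] with l hl hl1
    rw [Real.norm_of_nonneg (pow_nonneg (Real.log_nonneg hl1) _), id,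
      Real.norm_of_nonneg (by linarith)] at hl
    exact hl
  have ev2 : ∀ᶠ l : ℝ in atTop, max 2 (2 ^ (a + 2) / c) ≤ Real.log l :=
    Real.tendsto_log_atTop.eventually_ge_atTop _
  obtain ⟨l0, hl0⟩ := eventually_atTop.1 (ev1.and (ev2.and (eventually_ge_atTop (max 2 (y0 : ℝ)))))
  refine ⟨l0, fun l hl => ?_⟩
  obtain ⟨g1, g2, g3⟩ := hl0 l hl
  have hl2 : 2 ≤ l := (le_max_left _ _).trans g3
  have hly : (y0 : ℝ) ≤ l := (le_max_right _ _).trans g3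
  have hL2 : 2 ≤ Real.log l := (le_max_left _ _).trans g2
  have hLc : 2 ^ (a + 2) / c ≤ Real.log l := (le_max_right _ _).trans g2
  set Lg := Real.log l with hLg
  have hpow1 : 1 ≤ Lg ^ (a + 2) := one_le_pow₀ (by linarith)
  set J : ℕ := ⌈l * Lg ^ (a + 2)⌉₊ with hJ
  have hJ1 : l * Lg ^ (a + 2) ≤ J := Nat.le_ceil _
  have hJ2 : (J : ℝ) < l * Lg ^ (a + 2) + 1 := Nat.ceil_lt_add_one (by positivity)
  have hlJ : l ≤ J := by nlinarith
  have hJl2 : (J : ℝ) ≤ l ^ 2 := by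
    have : l * Lg ^ (a + 2) ≤ l * (1 / 2 * l) := mul_le_mul_of_nonneg_left g1 (by linarith)
    nlinarith
  have hJpos : (0 : ℝ) < J := by linarith
  have hlogJ1 : Lg ≤ Real.log J := Real.log_le_log (by linarith) hlJ
  have hlogJ2 : Real.log J ≤ 2 * Lg := by
    have := Real.log_le_log hJpos hJl2
    rwa [Real.log_pow, Nat.cast_ofNat] at this
  obtain ⟨S, hS1, hS2, hS3⟩ := h J (by exact_mod_cast hly.trans hlJ)
  have hcard : 2 * l ≤ S.card := by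
    have h1 : c * (l * Lg ^ (a + 2)) ≤ S.card * (2 * Lg) ^ (a + 1) := by
      calc c * (l * Lg ^ (a + 2)) ≤ c * J := mul_le_mul_of_nonneg_left hJ1 hc.le
        _ ≤ S.card * Real.log J ^ (a + 1) := hS3
        _ ≤ S.card * (2 * Lg) ^ (a + 1) := by
            apply mul_le_mul_of_nonneg_left _ (Nat.cast_nonneg _)
            exact pow_le_pow_left₀ (by linarith) hlogJ2 _
    have h2 : (0 : ℝ) < (2 * Lg) ^ (a + 1) := by positivity
    have h3 : 2 * l * (2 * Lg) ^ (a + 1) ≤ c * (l * Lg ^ (a + 2)) := by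
      have h4 : 2 ^ (a + 2) ≤ c * Lg := by
        rw [div_le_iff₀ hc] at hLc
        linarith
      have h5 : 0 ≤ l * Lg ^ (a + 1) := by positivity
      calc 2 * l * (2 * Lg) ^ (a + 1) = 2 ^ (a + 2) * (l * Lg ^ (a + 1)) := by
            rw [mul_pow, pow_succ (2 : ℝ) (a + 1)]; ring
        _ ≤ c * Lg * (l * Lg ^ (a + 1)) := mul_le_mul_of_nonneg_right h4 h5
        _ = c * (l * Lg ^ (a + 2)) := by rw [pow_succ Lg (a + 1)]; ring
    exact le_of_mul_le_mul_right (h3.trans h1) h2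
  have hceil : ⌈l⌉₊ ≤ S.card := by
    rw [Nat.ceil_le]; linarith
  obtain ⟨U, hU1, hU2⟩ := Finset.exists_subset_card_eq hceil
  have hU3 : l ≤ U.card := by rw [hU2]; exact Nat.le_ceil _
  have hU4 : (U.card : ℝ) < l + 1 := by rw [hU2]; exact Nat.ceil_lt_add_one (by linarith)
  refine ⟨J, U, hU1.trans hS1, fun p hp => hS2 p (hU1 hp), hU3, by linarith, hlJ, hJl2, ?_⟩
  have h6 : (J : ℝ) ≤ l * Lg ^ (a + 3) := by
    have h7 : l * Lg ^ (a + 3) = l * Lg ^ (a + 2) * Lg := by rw [pow_succ Lg (a + 2)]; ring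
    rw [h7]
    have h8 : 1 ≤ l * Lg ^ (a + 2) := by nlinarith
    nlinarith
  refine h6.trans ?_
  exact mul_le_mul hU3 (pow_le_pow_left₀ (by linarith) hlogJ1 _) (by positivity) (Nat.cast_nonneg _)

end Pool.Agent.NH4.QL.SetA

namespace Pool.Agent.NH4.QL

theorem t_SET : S_SET :=
  SetA.set_aux Pool.Agent.H197R2.PG.PI Pool.Agent.TH665.GP.density3

end Pool.Agent.NH4.QL
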