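import Pool.Agent.NH4.QL.Stm
import Pool.Agent.H197R2.PG3

/-!
# QL-AVG (helper17): the average of `gg` over the differences of a set of polylogarithmic density
-/

set_option autoImplicit false

open Finset Filter

namespace Pool.Agent.NH4.QL.Avg

open Pool.Agent.H197R2.PG (gg one_le_gg moment_le euler_le wt PY)

/-- the number of repetitions of each difference is at most `#U` -/
theorem sum_diff (F : ℕ → ℝ) (hF : ∀ h, 0 ≤ F h) (J : ℕ) (U : Finset ℕ) (hU : U ⊆ Icc 1 J) :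
    ∑ z ∈ (U ×ˢ U).filter (fun z => z.1 < z.2), F (z.2 - z.1) ≤
      U.card * ∑ h ∈ Icc 1 J, F h := by
  have h1 : ∑ z ∈ (U ×ˢ U).filter (fun z => z.1 < z.2), F (z.2 - z.1) =
      ∑ u ∈ U, ∑ v ∈ U.filter (fun v => u < v), F (v - u) := by
    rw [Finset.sum_filter, Finset.sum_product]
    refine Finset.sum_congr rfl fun u _ => ?_
    rw [Finset.sum_filter]
  rw [h1, ← nsmul_eq_mul, ← Finset.sum_const]
  refine Finset.sum_le_sum fun u hu => ?_
  have h2 : ∑ v ∈ U.filter (fun v => u < v), F (v - u) =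
      ∑ h ∈ (U.filter (fun v => u < v)).image (fun v => v - u), F h := by
    rw [Finset.sum_image]
    intro v hv w hw hvw
    have h3 := (mem_filter.1 (mem_coe.1 hv)).2
    have h4 := (mem_filter.1 (mem_coe.1 hw)).2
    have h5 : v - u = w - u := hvw
    omega
  rw [h2]
  refine Finset.sum_le_sum_of_subset_of_nonneg ?_ (fun h _ _ => hF h)
  intro h hh
  rw [mem_image] at hh
  obtain ⟨v, hv, rfl⟩ := hh
  rw [mem_filter] at hv
  have h6 := mem_Icc.1 (hU hv.1)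
  rw [mem_Icc]
  omega

theorem pow_mean {α : Type} (P : Finset α) (f : α → ℝ) (hf : ∀ a ∈ P, 0 ≤ f a) (m : ℕ) :
    (∑ a ∈ P, f a) ^ (m + 1) ≤ (P.card : ℝ) ^ m * ∑ a ∈ P, f a ^ (m + 1) := by
  rcases P.eq_empty_or_nonempty with rfl | hP
  · simp
  have h1 := pow_sum_div_card_le_sum_pow (s := P) (f := f) hf m
  have h2 : (0 : ℝ) < (P.card : ℝ) ^ m := by
    apply pow_pos
    exact_mod_cast hP.card_pos
  rwa [div_le_iff₀ h2, mul_comm] at h1

end Pool.Agent.NH4.QL.Avg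

namespace Pool.Agent.NH4.QL

open Pool.Agent.H197R2.PG (gg one_le_gg moment_le euler_le wt PY)

theorem t_AVG : S_AVG := by
  intro A
  obtain ⟨C, hC, hE⟩ := euler_le
  have hA1 : (1 : ℝ) ≤ Real.exp A := Real.one_le_exp (Nat.cast_nonneg A)
  refine ⟨2 * (Real.exp A * C), by nlinarith, ⌈Real.exp (Real.exp 4)⌉₊, ?_⟩
  intro J hJ U hU hd
  have hJe : Real.exp (Real.exp 4) ≤ J := (Nat.le_ceil _).trans (by exact_mod_cast hJ)
  have hJ0 : (0 : ℝ) < J := (Real.exp_pos _).trans_le hJe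
  set L1 : ℝ := Real.log J with hL1
  have h1 : Real.exp 4 ≤ L1 := (Real.le_log_iff_exp_le hJ0).2 hJe
  have hL1pos : 0 < L1 := (Real.exp_pos _).trans_le h1
  set L2 : ℝ := Real.log L1 with hL2
  have h2 : 4 ≤ L2 := (Real.le_log_iff_exp_le hL1pos).2 h1
  set k : ℕ := ⌈L2⌉₊ + 3 with hk
  have hk3 : 3 ≤ k := by omega
  have hkL : L2 ≤ k := by
    have := Nat.le_ceil L2
    rw [hk]
    push_cast
    linarith
  have hkU : (k : ℝ) ≤ L2 + 4 := by
    have := (Nat.ceil_lt_add_one (by linarith : (0 : ℝ) ≤ L2)).le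
    rw [hk]
    push_cast
    linarith
  have hk0 : (0 : ℝ) < k := by exact_mod_cast (by omega : 0 < k)
  have hlk : 0 < Real.log k := Real.log_pos (by exact_mod_cast (by omega : 1 < k))
  have hlk2 : Real.log k ≤ 2 * Real.log L2 := by
    have h3 : (k : ℝ) ≤ L2 ^ 2 := by nlinarith
    have h4 := Real.log_le_log hk0 h3
    rwa [Real.log_pow] at h4
  obtain ⟨m, hm⟩ : ∃ m, k = m + 1 := ⟨k - 1, by omega⟩
  set P := (U ×ˢ U).filter (fun z => z.1 < z.2) with hP
  set n : ℝ := (U.card : ℝ) with hn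
  have hn0 : 0 ≤ n := Nat.cast_nonneg _
  have hPc : (P.card : ℝ) ≤ n ^ 2 := by
    have h3 : P.card ≤ U.card * U.card := by
      rw [← Finset.card_product]
      exact Finset.card_filter_le _ _
    have h4 : (P.card : ℝ) ≤ (U.card : ℝ) * U.card := by exact_mod_cast h3
    rw [pow_two]
    exact h4
  have hg0 : ∀ h, 0 ≤ gg h := fun h => by linarith [one_le_gg h]
  have h5 : (∑ z ∈ P, gg (z.2 - z.1)) ^ (m + 1) ≤
      (P.card : ℝ) ^ m * ∑ z ∈ P, gg (z.2 - z.1) ^ (m + 1) :=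
    Avg.pow_mean P _ (fun z _ => hg0 _) m
  have h6 : ∑ z ∈ P, gg (z.2 - z.1) ^ k ≤ n * ∑ h ∈ Icc 1 J, gg h ^ k :=
    Avg.sum_diff (fun h => gg h ^ k) (fun h => pow_nonneg (hg0 h) _) J U hU
  have h7 : ∑ h ∈ Icc 1 J, gg h ^ k ≤ J * (C * Real.log k) ^ k := by
    refine (moment_le k J).trans ?_
    exact mul_le_mul_of_nonneg_left (hE k J hk3) hJ0.le
  have hCk : 0 ≤ C * Real.log k := by positivity
  have h8 : L1 ^ A ≤ Real.exp A ^ k := by
    rw [← Real.exp_log hL1pos, ← hL2, ← Real.exp_nat_mul, ← Real.exp_nat_mul]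
    apply Real.exp_le_exp.2
    rw [mul_comm (k : ℝ)]
    exact mul_le_mul_of_nonneg_left hkL (Nat.cast_nonneg A)
  have h9 : ∑ z ∈ P, gg (z.2 - z.1) ^ k ≤ n ^ 2 * (Real.exp A * (C * Real.log k)) ^ k := by
    calc ∑ z ∈ P, gg (z.2 - z.1) ^ k ≤ n * ∑ h ∈ Icc 1 J, gg h ^ k := h6
      _ ≤ n * (J * (C * Real.log k) ^ k) := mul_le_mul_of_nonneg_left h7 hn0
      _ ≤ n * ((n * L1 ^ A) * (C * Real.log k) ^ k) := by
          refine mul_le_mul_of_nonneg_left ?_ hn0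
          exact mul_le_mul_of_nonneg_right hd (pow_nonneg hCk _)
      _ ≤ n * ((n * Real.exp A ^ k) * (C * Real.log k) ^ k) := by
          refine mul_le_mul_of_nonneg_left ?_ hn0
          refine mul_le_mul_of_nonneg_right ?_ (pow_nonneg hCk _)
          exact mul_le_mul_of_nonneg_left h8 hn0
      _ = n ^ 2 * (Real.exp A * (C * Real.log k)) ^ k := by
          rw [mul_pow (Real.exp (A : ℝ))]
          ring
  have h10 : (∑ z ∈ P, gg (z.2 - z.1)) ^ k ≤
      (n ^ 2 * (Real.exp A * (C * Real.log k))) ^ k := by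
    rw [hm] at h9 ⊢
    calc (∑ z ∈ P, gg (z.2 - z.1)) ^ (m + 1) ≤
        (P.card : ℝ) ^ m * ∑ z ∈ P, gg (z.2 - z.1) ^ (m + 1) := h5
      _ ≤ (n ^ 2) ^ m * (n ^ 2 * (Real.exp A * (C * Real.log ((m + 1 : ℕ) : ℝ))) ^ (m + 1)) := by
          refine mul_le_mul (pow_le_pow_left₀ (Nat.cast_nonneg _) hPc m) h9 ?_ (by positivity)
          exact Finset.sum_nonneg fun z _ => pow_nonneg (hg0 _) _
      _ = (n ^ 2 * (Real.exp A * (C * Real.log ((m + 1 : ℕ) : ℝ)))) ^ (m + 1) := by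
          rw [mul_pow (n ^ 2)]
          ring
  have h11 : ∑ z ∈ P, gg (z.2 - z.1) ≤ n ^ 2 * (Real.exp A * (C * Real.log k)) :=
    le_of_pow_le_pow_left₀ (by omega : k ≠ 0) (by positivity) h10
  refine h11.trans ?_
  calc n ^ 2 * (Real.exp A * (C * Real.log k)) ≤
      n ^ 2 * (Real.exp A * (C * (2 * Real.log L2))) := by gcongr
    _ = 2 * (Real.exp A * C) * n ^ 2 * Real.log L2 := by ring

end Pool.Agent.NH4.QL
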