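import Pool.Agent.H197R2.PG7

/-!
# Statements: sums of a small iterated prime and a prime in short intervals

`gg h` is the product of `1 + 1 / p` over the primes `p ∣ h`, `PI a p` says that `p` is an `a`-prime.
-/

set_option autoImplicit false

open Finset Filter

namespace Pool.Agent.NH4.QL

open Pool.Agent.H197R2.PG (gg PI)

/-- The average of `gg` over the differences of a set of polylogarithmic density is `O(log log log J)`. -/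
def S_AVG : Prop := ∀ A : ℕ, ∃ C : ℝ, 1 ≤ C ∧ ∃ J0 : ℕ, ∀ J : ℕ, J0 ≤ J →
  ∀ U : Finset ℕ, U ⊆ Icc 1 J → (J : ℝ) ≤ U.card * Real.log J ^ A →
    ∑ z ∈ (U ×ˢ U).filter (fun z => z.1 < z.2), gg (z.2 - z.1) ≤
      C * (U.card : ℝ) ^ 2 * Real.log (Real.log (Real.log J))

/-- Cauchy-Schwarz for the sums `q + u`. -/
def S_ENE : Prop := ∀ (X Y : ℕ) (U Q : Finset ℕ),
  Q ⊆ (Ioc X (X + Y)).filter Nat.Prime →
    ((U.card : ℝ) * Q.card) ^ 2 ≤ (((U ×ˢ Q).image (fun z => z.2 + z.1)).card : ℝ) *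
      (U.card * Q.card + 2 * ∑ z ∈ (U ×ˢ U).filter (fun z => z.1 < z.2),
        (((Ioc X (X + Y)).filter (fun n => n.Prime ∧ (n + (z.2 - z.1)).Prime)).card : ℝ))

/-- A set of about `l` small `a`-primes. -/
def S_SET : Prop := ∀ a : ℕ, ∃ l0 : ℝ, ∀ l : ℝ, l0 ≤ l → ∃ (J : ℕ) (U : Finset ℕ),
  U ⊆ Icc 3 J ∧ (∀ p ∈ U, PI a p) ∧ l ≤ U.card ∧ (U.card : ℝ) ≤ 2 * l ∧
    l ≤ J ∧ (J : ℝ) ≤ l ^ 2 ∧ (J : ℝ) ≤ U.card * Real.log J ^ (a + 3)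

/-- Primes in short intervals (a starting result, `Pool.Agent.H295R3.D.hoheisel`). -/
def S_HOH : Prop := ∃ δ η : ℝ, 0 < δ ∧ δ < 1 ∧ 0 < η ∧ ∃ X₀ : ℕ, 2 ≤ X₀ ∧
  ∀ X Y : ℕ, X₀ ≤ X → (X : ℝ) ^ (1 - δ) ≤ Y → Y ≤ X →
    η * Y / Real.log X ≤ (((Ioc X (X + Y)).filter Nat.Prime).card : ℝ)

/-- Many sums `q + p` of a small `a`-prime `p` and a prime `q` in every short interval. -/
def S_CORE : Prop := ∃ δ : ℝ, 0 < δ ∧ δ < 1 ∧ ∀ a : ℕ, ∃ c : ℝ, 0 < c ∧ ∃ X₀ : ℕ,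
  ∀ X Y : ℕ, X₀ ≤ X → (X : ℝ) ^ (1 - δ) ≤ Y → Y ≤ X → ∃ S : Finset ℕ,
    (∀ N ∈ S, X < N ∧ N ≤ X + Y ∧
      ∃ p q : ℕ, p < q ∧ p % 2 = 1 ∧ q % 2 = 1 ∧ PI a p ∧ q.Prime ∧ q + p = N) ∧
    c * Y / Real.log (Real.log (Real.log (Real.log X))) ≤ S.card

/-- The `a`-prime with the index `i`: the `(a + 1)`-fold iterate of `k ↦ k`-th prime. -/
noncomputable def iter (a i : ℕ) : ℕ :=
  Nat.iterate (fun k : ℕ => Nat.nth Nat.Prime (k - 1)) (a + 1) i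

/-- The final form. -/
def S_FIN : Prop := ∃ δ : ℝ, 0 < δ ∧ δ < 1 ∧ ∀ a : ℕ, ∃ c : ℝ, 0 < c ∧ ∃ X₀ : ℕ,
  ∀ X Y : ℕ, X₀ ≤ X → (X : ℝ) ^ (1 - δ) ≤ Y → Y ≤ X →
    c * Y / Real.log (Real.log (Real.log (Real.log X))) ≤
      Set.ncard {n : ℕ | X < n ∧ n ≤ X + Y ∧ ∃ u v : ℕ, 0 < u ∧ 0 < v ∧
        iter a u ≠ iter 0 v ∧ iter a u + iter 0 v = 2 * n}

end Pool.Agent.NH4.QL
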